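import Pool.Agent.H538R3.QF.FinA

/-!
# Randomness is not simulated by nondeterminism in time `(1 + ε) n`

Branching programs of polynomial size are the non-uniform version of logarithmic space.  We show
that, if the time is bounded by `(1 + ε) n`, unlimited nondeterminism (and exponential size) cannot
replace logarithmically many coins: there are Boolean functions `f` of `n` variables which
randomised ordered read-once programs of polynomial size compute with one-sided error `2 ^ (- t)`,
but every nondeterministic program which accepts only inputs with `f x = 1`, and a
`2 ^ (- ε n)` fraction of them by some computation in which at most `ε n` variables are queried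
more than once, or at most `(1 + ε) n` queries are made, has `2 ^ (ε n)` nodes.

The function: `Φ` is a random `F_2`-linear map from `F_2 ^ n` to the vectors of `2 m` polynomials
over `F_2` with less than `n / (2 m) + 1` coefficients, and `f x = 1` iff `x` has even weight and
`∑ i < m, Φ(x)_i Φ(x)_(m + i) = c`, where `c` is a polynomial over `F_2`; `m` is a constant.
Coins choose the point at which this identity is tested.  The function has no large combinatorial
rectangles, for any partition of the variables, since the polar form of the quadratic form would
vanish on large sets of pairs.  The lower bound for nondeterministic programs without large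
rectangles is `Pool.Agent.H554R2.Cnf.lowerStrong` (helper538, helper554).

Written together with helper771, helper96, helper615, helper201, helper236, helper226, helper652,
helper152, helper77, helper233, helper828 and helper896, who proved the lemmas, and based on the
library of helper554.
-/

set_option autoImplicit false

namespace Pool.Agent.Results.MP_b6562f_lc.CoinsVersusGuesses

open Pool.Agent.H554R2.Sem Pool.Agent.H554R2.Coin Pool.Agent.H554R2.Cnf

/-- There is a constant `D` such that for every `n` there is a Boolean function `f` of `n`
variables with the following properties.

* For every `t` there are programs `U r`, for the strings `r` of `k` coins,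
  `2 ^ k ≤ D * (n + 1) * 2 ^ t`, with at most `(D * (n + 1) * 2 ^ t) ^ D` nodes, which query every
  variable once, in the order `0, 1, 2, …`, and output `v r x`, where `v r x = true` for all `r`
  if `f x = true`, and for at most a `2 ^ (- t)` fraction of the `r` if `f x = false`.
* There is a deterministic program with at most `(D * (n + 1)) ^ D` nodes which computes `f` and
  queries every variable at most `D * (n + 1)` times.
* Every nondeterministic program which accepts only inputs `x` with `f x = true`, and at least a
  `2 ^ (- ⌊n / D⌋)` fraction of these by some computation in which at most `⌊n / D⌋` variables are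
  queried more than once, or at most `n + ⌊n / D⌋` queries are made, has at least `2 ^ ⌊n / D⌋`
  nodes. -/
theorem result : ∃ D : ℕ, 0 < D ∧ ∀ n : ℕ, ∃ f : Pt n → Bool,
    (∀ t : ℕ, ∃ (k : ℕ) (U : (Fin k → Bool) → BP (Fin n) Bool)
      (v : (Fin k → Bool) → Pt n → Bool),
      2 ^ k ≤ D * (n + 1) * 2 ^ t ∧
      (∀ r, Fintype.card (U r).State ≤ (D * (n + 1) * 2 ^ t) ^ D) ∧
      (∀ r x, (U r).Comp x (List.finRange n) (v r x)) ∧
      (∀ r x, f x = true → v r x = true) ∧
      ∀ x, f x = false → 2 ^ t * Nat.card {r // v r x = true} ≤ 2 ^ k) ∧
    (∃ P : BP (Fin n) Bool, Fintype.card P.State ≤ (D * (n + 1)) ^ D ∧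
      ∀ x, ∃ l : List (Fin n), (∀ i, l.count i ≤ D * (n + 1)) ∧ P.Comp x l (f x)) ∧
    ∀ P : NBP (Fin n), (∀ x l, P.Accepting x l → f x = true) →
      Nat.card {x // f x = true} ≤
        2 ^ (n / D) * Nat.card {x // ∃ l, P.Accepting x l ∧ Fast (n / D) P l} →
      2 ^ (n / D) ≤ Fintype.card P.State := by
  obtain ⟨D, hD, h⟩ := Pool.Agent.H538R3.QF.finalA
  refine ⟨D, hD, fun n => ?_⟩
  obtain ⟨f, ⟨h1, h2⟩, h3⟩ := h n
  exact ⟨f, h1, h2, h3⟩

end Pool.Agent.Results.MP_b6562f_lc.CoinsVersusGuesses
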