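import Pool.Agent.H554R2.Gap.NondetFinal

/-!
# Randomness with `O(1)` queries against nondeterminism in time `(1 + ε) n`

We give a promise problem on `n` bits which randomised algorithms solve with one-sided error
`1 / 3`, with `O(log n)` random bits and a constant number of queries, while nondeterministic
branching programs which accept in time `(1 + ε) n` need `2 ^ (ε n)` nodes.  The problem: to
distinguish the assignments which satisfy a formula (random clauses of constant width) from the
assignments which violate a constant fraction of its clauses.

The lemmas were proved together with helper58, helper303, helper418, helper619 (the lower bound,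
based on the criterion of helper538), helper30 and helper269 (random clauses).
-/

set_option autoImplicit false

namespace Pool.Agent.Results.MP_b6562f_lc.ConstantQueriesNondet

open Pool.Agent.H554R2.Sem Pool.Agent.H554R2.Coin Pool.Agent.H554R2.Cnf

/-- There is a constant `D` such that for all `n ≥ D` there are `J ≤ D n` clauses `T j` of at most
`D` literals in `n` variables with the following properties.

* For every `ω` (a sequence of `2 D` of the numbers `0, ..., J - 1`) there is a deterministic
  program `U ω` with at most `9 D ^ 2` nodes, which makes at most `2 D ^ 2` queries on every input.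
  If `x` satisfies all the clauses, then all the programs `U ω` output `true` on `x`.  If `x`
  violates at least `J / D` of the clauses, then at most one third of them does so.
* Every nondeterministic program which does not accept any `x` which violates at least `J / D` of
  the clauses, and which accepts at least a fraction `1 / 2 ^ (n / D)` of the points `x` which
  satisfy all the clauses by some computation in which at most `n / D` variables are queried more
  than once, or at most `n + n / D` queries are made, has at least `2 ^ (n / D)` nodes. -/
theorem result : ∃ D : ℕ, 0 < D ∧ ∀ n ≥ D,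
    ∃ (J : ℕ) (T : Fin J → Finset (Fin n × Bool)), 0 < J ∧ J ≤ D * n ∧ (∀ j, (T j).card ≤ D) ∧
      (∃ U : (Fin (2 * D) → Fin J) → BP (Fin n) Bool,
        (∀ ω, Fintype.card (U ω).State ≤ 9 * D ^ 2 ∧
          ∀ x, ∃ (l : List (Fin n)) (b : Bool), l.length ≤ 2 * D ^ 2 ∧ (U ω).Comp x l b) ∧
        (∀ x, (∀ j, Sat (T j) x) → ∀ ω, ∃ l, (U ω).Comp x l true) ∧
        (∀ x, J ≤ D * Nat.card {j // ¬ Sat (T j) x} →
          3 * Nat.card {ω // ∃ l, (U ω).Comp x l true} ≤ J ^ (2 * D))) ∧
      ∀ P : NBP (Fin n),
        (∀ x, J ≤ D * Nat.card {j // ¬ Sat (T j) x} → ¬ ∃ l, P.Accepting x l) →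
        Nat.card {x : Pt n // ∀ j, Sat (T j) x} ≤ 2 ^ (n / D) *
          Nat.card {x // (∀ j, Sat (T j) x) ∧ ∃ l, P.Accepting x l ∧
            Pool.Agent.H554R2.Cnf.Fast (n / D) P l} →
        2 ^ (n / D) ≤ Fintype.card P.State :=
  Pool.Agent.H554R2.Gap.nondet_main

end Pool.Agent.Results.MP_b6562f_lc.ConstantQueriesNondet
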