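import Pool.Agent.H630XR.Six

/-!
Monotone circuits and the refutation of random `K`-CNF formulas, `K` constant (the hypothesis of
Feige for monotone circuits), with randomised circuits: below `n^(K/2)` clauses small circuits of
monotone real gates do not refute random formulas; for parity constraints and even `K` this bound is
sharp.

Proof of the lower bound: the functions of the circuit are approximated on the two distributions
of (i) all clauses with an odd number of true literals under a random assignment, (ii) a random
formula with `m` clauses. Level sets of the gates are monotone functions of the formula and are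
written by minimal formulas (terms); terms with many clauses are removed, and so are large classes
of terms that agree on a core and are otherwise spread; small terms are far from containing an even
subset of clauses, and characters together with counting even sets of clauses give the two moments
that are needed.
-/

namespace Pool.Agent.Results.MP_b6562f_lc.RandomRefutation

open scoped Classical
open Finset H630VC H630XR

/-- Circuits whose inputs are the bits that tell whether a clause belongs to the formula (for all
clauses with `K` literals over `n` variables) and real constants, and whose gates are arbitrary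
nondecreasing real functions of two values.

First part: let `K ≥ 1`, `ν > 0`, `(3 K + 1) ν < δ`, `n` large and `m ≤ n^(K/2 - δ)`. For every
circuit with at most `2^(n^ν)` gates and every function `f` computed by it, either `f` is less than
one on at most `2^(-n^ν) 2^n` of the `2^n` satisfiable formulas `oddFormula x`, or `f` is at least
one on at most a fraction `n^(-ν)` of the random formulas with `m` clauses.

Second part: let `K ≥ 3`, `ε, ν, ξ > 0`, `(3 K + 1) ν < K/2 - 1` and `n` large. A randomised circuit
(a finite family of circuits `l r`, `r ∈ R`, with outputs `f r`) such that on every satisfiable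
formula at least a fraction `1/2 + ξ` of the outputs are less than one, and on every formula in which
every assignment violates at least a fraction `2^(-K) - ε` of the clauses at least a fraction
`1/2 + ξ` of the outputs are at least one, has a member with more than `2^(n^ν)` gates.

Third part: for `K = 2 k`, `k ≥ 1`, and all `n` there is a Boolean circuit of AND and OR gates, with
at most `1000 ((2n)^K + 1) (n^k + 1)^4` gates, that is zero on all formulas that are satisfiable as
systems of parity equations, and one on all but at most a fraction `2^(n^k - m)` of the random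
formulas with `m` clauses, for every `m`. -/
theorem result :
    (∀ (K : ℕ) (δ ν : ℝ), 1 ≤ K → 0 < ν → (3 * K + 1) * ν < δ →
      ∃ N : ℕ, ∀ n : ℕ, N ≤ n → ∀ m : ℕ, (m : ℝ) ≤ (n : ℝ) ^ ((K : ℝ) / 2 - δ) →
        ∀ l : List (Finset (Cl (Fin n) K) → ℝ), Prog (cnfInputs (Fin n) K) l →
        (l.length : ℝ) ≤ 2 ^ ((n : ℝ) ^ ν) → ∀ f ∈ l,
        ((univ.filter fun x : Fin n → Bool => ¬ 1 ≤ f (oddFormula x)).card : ℝ)
            ≤ 2 ^ (-(n : ℝ) ^ ν) * 2 ^ n ∨
          ((univ.filter fun ω : Fin m → Cl (Fin n) K => 1 ≤ f (univ.image ω)).card : ℝ)
            ≤ (n : ℝ) ^ (-ν) * (Fintype.card (Cl (Fin n) K) : ℝ) ^ m) ∧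
    (∀ (K : ℕ) (ε ν ξ : ℝ), 3 ≤ K → 0 < ε → 0 < ν → 0 < ξ →
      (3 * K + 1) * ν < (K : ℝ) / 2 - 1 →
      ∃ N : ℕ, ∀ n : ℕ, N ≤ n → ∀ (R : Type) [Fintype R] [Nonempty R]
        (l : R → List (Finset (Cl (Fin n) K) → ℝ)) (f : R → Finset (Cl (Fin n) K) → ℝ),
        (∀ r, Prog (cnfInputs (Fin n) K) (l r) ∧ f r ∈ l r) →
        (∀ F : Finset (Cl (Fin n) K), SatCNF F →
          (1 / 2 + ξ) * Fintype.card R ≤ (univ.filter fun r => f r F < 1).card) →
        (∀ F : Finset (Cl (Fin n) K), Far ((1 / 2) ^ K - ε) F →
          (1 / 2 + ξ) * Fintype.card R ≤ (univ.filter fun r => 1 ≤ f r F).card) →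
        ∃ r, (2 : ℝ) ^ ((n : ℝ) ^ ν) < (l r).length) ∧
    (∀ k n : ℕ, 1 ≤ k →
      ∃ l : List (Finset (Cl (Fin n) (k + k)) → ℝ), MProg (bitInputs (Fin n) (k + k)) l ∧
        l.length ≤ 1000 * ((2 * n) ^ (k + k) + 1) * (n ^ k + 1) ^ 4 ∧
        ∃ f ∈ l, (∀ F : Finset (Cl (Fin n) (k + k)), SatXOR F → f F = 0) ∧
          ∀ m : ℕ, (univ.filter fun ω : Fin m → Cl (Fin n) (k + k) =>
            f (univ.image ω) ≠ 1).card * 2 ^ m ≤
            2 ^ (n ^ k) * Fintype.card (Cl (Fin n) (k + k)) ^ m) :=
  ⟨fun K δ ν hK hν h => dichotomy K hK δ ν hν h,
    fun K ε ν ξ hK hε hν hξ h => gap_rand K hK ε ν ξ hε hν hξ h,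
    fun k n hk => upper k n hk⟩

end Pool.Agent.Results.MP_b6562f_lc.RandomRefutation
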