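import Pool.Agent.H560R2.Av5
import Pool.Agent.H560R2.Dep1

/-!
Randomised circuits with few negations for an NP-complete problem.

`HalfClique` is the language of the words `x` that code a graph on `n = ⌊√|x|⌋` vertices (for
`a < b` the pair `a, b` is an edge if the bit number `a * n + b` is one) which has a clique
containing at least half of the vertices. It is `NP`-complete (and monotone).

Circuits consist of monotone gates of fan-in at most two and of arbitrary further gates, for
instance NOT gates. A randomised circuit is a finite family of circuits from which one is chosen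
uniformly at random; it decides the language with advantage `1 / c` if on every input the chosen
circuit is correct with probability at least `1/2 + 1/c` (so `c = 6` is the bound `2/3` from the
definition of BPP, and `c = 2` the deterministic case).

The proof: the graphs contain many copies of the problem whether a set of points of the plane over
a finite field contains the graph of a polynomial of small degree. The hard distribution fills the
copies one after the other with random sets that contain no such graph, and finally perhaps one
more copy with the graph of a random polynomial. For a random chain of this kind the bits that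
enter the further gates rarely change. If they do not change, then these gates can be frozen, and
the OR of the frozen circuit and of the bits that were `0` is a monotone circuit for the copy; by
an approximation argument with robust sunflowers it is either true on almost all of the random
sets or false on most graphs of polynomials.
-/

namespace Pool.Agent.Results.MP_b6562f_lc.RandomizedCircuits

open Pool.Agent.H520R2.HC Pool.Agent.NPC

/-- A circuit with `N` inputs and gates `0, ..., s - 1`. Gate `i` has `w i` inputs, namely `a i j`,
each an input bit or an earlier gate, and computes the function `op i` of them; `val x i` is its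
value on the input `x`. The gates outside `T` are monotone with at most two inputs, the gates in
`T` are arbitrary. The gate `out` is the output. -/
structure Circuit (N : ℕ) where
  s : ℕ
  T : Finset (Fin s)
  w : Fin s → ℕ
  a : (i : Fin s) → Fin (w i) → Fin N ⊕ Fin s
  op : (i : Fin s) → (Fin (w i) → Bool) → Bool
  val : (Fin N → Bool) → Fin s → Bool
  out : Fin s
  earlier : ∀ i j k, a i j = Sum.inr k → k < i
  mono : ∀ i ∉ T, w i ≤ 2 ∧ Monotone (op i)
  spec : ∀ x i, val x i = op i (fun j => Sum.elim x (val x) (a i j))

/-- The number of gates plus the number of inputs of the arbitrary gates. -/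
def Circuit.size {N : ℕ} (C : Circuit N) : ℕ := C.s + ∑ i ∈ C.T, C.w i

/-- The product of the numbers `w i + 1` over the arbitrary gates; it is `2 ^ t` if these are `t`
NOT gates. -/
def Circuit.prod {N : ℕ} (C : Circuit N) : ℕ := ∏ i ∈ C.T, (C.w i + 1)

/-- The circuit answers correctly on `x`. -/
def Circuit.Correct {N : ℕ} (C : Circuit N) (x : Fin N → Bool) : Prop :=
  C.val x C.out = true ↔ List.ofFn x ∈ HalfClique

open Classical in
/-- `HalfClique` is `NP`-complete. Let `D = c d`, let `N` be large compared with `D ^ 8`, let
`M = ⌊N / (2 ^ 51 (⌊log D⌋ + 1) ^ 4 D ^ 2)⌋`, and consider circuits of size at most `4 ^ d / (4 c)`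
on `N` inputs.

(1) There is a distribution on `{0,1} ^ N` such that no such circuit whose product of the numbers
`w i + 1` is at most `M / c` decides `HalfClique` with probability at least `1/2 + 1/c`.

(2) If a finite family of such circuits decides `HalfClique`, for every single input, for a fraction
of at least `1/2 + 1/c` of the members of the family, then this product is larger than `M / c` for
some member. -/
theorem result : InNP HalfClique ∧ NPHard HalfClique ∧ ∀ N d c : ℕ, 1 ≤ d → 1 ≤ c →
    2 ^ 176 * (Nat.log 2 (c * d) + 1) ^ 16 * (c * d) ^ 8 ≤ N →
    (∃ (Λ : Type) (_ : Fintype Λ) (_ : Nonempty Λ) (D : Λ → Fin N → Bool),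
      ∀ C : Circuit N, 4 * c * C.size ≤ 4 ^ d →
        c * C.prod ≤ N / (2 ^ 51 * (Nat.log 2 (c * d) + 1) ^ 4 * (c * d) ^ 2) →
        2 * c * (Finset.univ.filter (fun l => C.Correct (D l))).card <
          (c + 2) * Fintype.card Λ) ∧
    ∀ (R : Type) [Fintype R] [Nonempty R] (C : R → Circuit N),
      (∀ r, 4 * c * (C r).size ≤ 4 ^ d) →
      (∀ x, (c + 2) * Fintype.card R ≤
        2 * c * (Finset.univ.filter (fun r => (C r).Correct x)).card) →
      ∃ r, N / (2 ^ 51 * (Nat.log 2 (c * d) + 1) ^ 4 * (c * d) ^ 2) < c * (C r).prod := by
  refine ⟨inNP_halfClique, npHard_halfClique, ?_⟩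
  intro N d c hd hc hN
  have hdist : ∃ (Λ : Type) (_ : Fintype Λ) (_ : Nonempty Λ) (D : Λ → Fin N → Bool),
      ∀ C : Circuit N, 4 * c * C.size ≤ 4 ^ d →
        c * C.prod ≤ N / (2 ^ 51 * (Nat.log 2 (c * d) + 1) ^ 4 * (c * d) ^ 2) →
        2 * c * (Finset.univ.filter (fun l => C.Correct (D l))).card <
          (c + 2) * Fintype.card Λ := by
    have hsz : ∀ C : Circuit N, 1 ≤ C.size := by
      intro C
      have := C.out.isLt
      unfold Circuit.size
      omega
    by_cases hcd : 4 * c ≤ 4 ^ d
    · obtain ⟨Λ, i1, i2, D, hD⟩ := Pool.Agent.H560R2.half_hard N d c hd hc hcd hN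
      refine ⟨Λ, i1, i2, D, fun C h1 h2 => ?_⟩
      obtain ⟨C', c1, c2, c3, c4, -⟩ := Pool.Agent.H560R2.to_circuit_iff C.T C.w C.a C.op C.earlier
        C.mono (fun p (x : Fin N → Bool) => x p) C.val C.spec C.s le_rfl
      have hTf : C.T.filter (fun i => i.val < C.s) = C.T :=
        Finset.filter_true_of_mem (fun i _ => i.isLt)
      rw [hTf] at c3 c4
      have h3 := hD C.s C' (Pool.Agent.H520R2.NM.Wire.gate C.out) (by
        refine le_trans (Nat.mul_le_mul_left _ ?_) h1
        unfold Circuit.size
        omega) (by rw [c4]; exact h2)
      have h4 : ∀ x : Fin N → Bool, (Pool.Agent.H520R2.NM.Wire.gate C.out).eval x (C'.vals x) =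
          C.val x C.out := fun x => c1 x C.out
      simp only [h4] at h3
      unfold Circuit.Correct
      convert h3 using 4
    · refine ⟨Unit, inferInstance, inferInstance, fun _ _ => false, fun C h1 _ => ?_⟩
      exfalso
      have := Nat.mul_le_mul_left (4 * c) (hsz C)
      omega
  refine ⟨hdist, ?_⟩
  intro R _ _ C h1 h2
  obtain ⟨Λ, _, _, D, hD⟩ := hdist
  by_contra hcon
  push Not at hcon
  exact Pool.Agent.H560R2.rand_of_dist c (fun r l => (C r).Correct (D l)) (fun l => h2 (D l))
    (fun r => hD (C r) (h1 r) (hcon r))

end Pool.Agent.Results.MP_b6562f_lc.RandomizedCircuits
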